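import Mathlib
import Pool.Agent.H54.Wheel

set_option autoImplicit false

namespace Pool.Agent.Results.MP_65a48b_co.Q1False

open Classical

/-- the wheel on five vertices: a hub joined to all vertices of a 4-cycle -/
def W5 : SimpleGraph (Option (Fin 4)) :=
  SimpleGraph.fromRel (fun x y => ∀ i j, x = some i → y = some j →
    (SimpleGraph.cycleGraph 4).Adj i j)

/-- For k = 2 the spectral bound of Q1 fails for infinitely many admissible m. -/
theorem result (m₀ : ℕ) :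
    ∃ m : ℕ, m₀ ≤ m ∧ (m + 2 * (2 + 1) / 2) % 2 = 0 ∧
      ∃ (V : Type) (_ : Fintype V) (G : SimpleGraph V),
        (∀ v, ∃ w, G.Adj v w) ∧ G.edgeSet.ncard = m ∧ W5.Free G ∧
        ((2 : ℝ) - 1 + √(4 * (m : ℝ) - 2 ^ 2 + 1)) / 2 < sSup (spectrum ℝ (G.adjMatrix ℝ)) := by
  set s := m₀ + 1 with hs
  refine ⟨4 * s * (s + 1) + s + (s + 1), by nlinarith, ?_, _, inferInstance,
    Pool.Agent.H54.Wheel.G s (s + 1), fun v => ⟨(v.1, !v.2), Or.inr ⟨rfl, by simp⟩⟩,
    Pool.Agent.H54.Wheel.edges _ _, ?_, ?_⟩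
  · rw [mul_assoc]; omega
  · rintro ⟨f⟩
    have hadj : ∀ x y, W5.Adj x y → (Pool.Agent.H54.Wheel.G s (s + 1)).Adj (f x) (f y) :=
      fun x y h => f.toHom.map_adj h
    have h0 : ∀ i, W5.Adj (some i) none := fun i => by simp [W5]
    have h1 : ∀ i j, (SimpleGraph.cycleGraph 4).Adj i j → W5.Adj (some i) (some j) := by
      intro i j h
      simp [W5, h, h.ne]
    exact Pool.Agent.H54.Wheel.no_wheel _ _ (f none) (f (some 0)) (f (some 1)) (f (some 2))
      (f (some 3)) (hadj _ _ (h0 _)) (hadj _ _ (h0 _)) (hadj _ _ (h0 _)) (hadj _ _ (h0 _))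
      (hadj _ _ (h1 _ _ (by decide))) (hadj _ _ (h1 _ _ (by decide)))
      (hadj _ _ (h1 _ _ (by decide))) (hadj _ _ (h1 _ _ (by decide)))
      (f.injective.ne (by decide)) (f.injective.ne (by decide))
  · refine lt_of_lt_of_le ?_ (@Pool.Agent.H54.Wheel.eigen s (s + 1)
      (fun a b => Classical.propDecidable (a = b)) (by omega) (by omega))
    have h0 : (0 : ℝ) < s := by positivity
    have h1 : √(s : ℝ) * √s = s := Real.mul_self_sqrt h0.le
    have h2 : √((s + 1 : ℕ) : ℝ) * √((s + 1 : ℕ) : ℝ) = s + 1 := by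
      rw [Real.mul_self_sqrt (Nat.cast_nonneg _)]; push_cast; ring
    have h3 : 0 < √(s : ℝ) := Real.sqrt_pos.mpr h0
    have h4 : √(s : ℝ) < √((s + 1 : ℕ) : ℝ) := Real.sqrt_lt_sqrt h0.le (by push_cast; linarith)
    have h5 : (s : ℝ) < √s * √((s + 1 : ℕ) : ℝ) := by nlinarith
    have h6 : (√s * √((s + 1 : ℕ) : ℝ)) ^ 2 = s * (s + 1) := by
      rw [mul_pow, sq, sq, h1, h2]
    generalize √s * √((s + 1 : ℕ) : ℝ) = y at *
    have h7 : √(4 * ((4 * s * (s + 1) + s + (s + 1) : ℕ) : ℝ) - 2 ^ 2 + 1) < 1 + 4 * y := by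
      rw [Real.sqrt_lt' (by linarith)]
      push_cast
      nlinarith
    rw [div_lt_iff₀ (by norm_num)]
    refine lt_of_lt_of_le (add_lt_add_right h7 _) (le_of_eq ?_)
    ring

end Pool.Agent.Results.MP_65a48b_co.Q1False
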